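import Pool.Agent.H.MP_216555_lc.q.QGrow

/-!
# Growth with the constant `4 + ε`
-/

namespace MS216

open Filter

private theorem ng_SQ {K : ℕ} (hK : 2 ≤ K) : SQ K ≤ 6 * K ^ 4 := by
  obtain ⟨a, rfl⟩ := Nat.exists_eq_add_of_le hK
  unfold SQ phiQ Lp
  ring_nf
  nlinarith [Nat.zero_le a, Nat.zero_le (a ^ 2), Nat.zero_le (a ^ 3), Nat.zero_le (a ^ 4)]

private theorem ng_log {K : ℕ} (hK : 2 ≤ K) :
    Real.log (MQ K : ℝ) ≤ 372 * ((K : ℝ) ^ 4 * Real.log K) := by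
  have hK2 : (2 : ℝ) ≤ K := by exact_mod_cast hK
  have h1 : Real.log (MQ K : ℝ) = (62 * SQ K : ℕ) * Real.log K := by
    unfold MQ
    rw [Nat.cast_pow, Real.log_pow]
  have h3 : ((62 * SQ K : ℕ) : ℝ) ≤ 372 * (K : ℝ) ^ 4 := by
    have h4 : 62 * SQ K ≤ 372 * K ^ 4 := by
      have := ng_SQ hK
      omega
    exact_mod_cast h4
  rw [h1, ← mul_assoc]
  exact mul_le_mul_of_nonneg_right h3 (Real.log_nonneg (by linarith))

private theorem ng_ev {η : ℝ} (hη : 0 < η) :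
    ∀ᶠ y : ℝ in atTop, 11904 * Real.log (2 * y) ≤ y ^ η := by
  have hc : (0 : ℝ) < 1 / (11904 * 2 ^ η) := by positivity
  have h := (isLittleO_log_rpow_atTop hη).bound hc
  have t : Tendsto (fun y : ℝ => 2 * y) atTop atTop :=
    tendsto_id.const_mul_atTop (by norm_num)
  filter_upwards [t.eventually h, eventually_ge_atTop 1] with y hy hy1
  rw [Real.norm_eq_abs, Real.norm_eq_abs] at hy
  have h1 : |(2 * y) ^ η| = 2 ^ η * y ^ η := by
    rw [abs_of_nonneg (by positivity), Real.mul_rpow (by norm_num) (by linarith)]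
  rw [h1] at hy
  have h2 := (le_abs_self _).trans hy
  have h3 : (0 : ℝ) < 2 ^ η := by positivity
  have h4 : 11904 * (1 / (11904 * 2 ^ η) * (2 ^ η * y ^ η)) = y ^ η := by
    field_simp
  rw [← h4]
  linarith

theorem growthE (η δ : ℝ) (hη : 0 < η) (hδ : 0 < δ) (hδ1 : δ ≤ 1) : ∃ m₀ : ℕ, ∀ m, m₀ ≤ m →
    ∀ n, HasGood m n → (1 - δ) * (m * Real.log (Real.log m)) ≤ (4 + η) * Real.log n := by
  have t0 : Tendsto (fun m : ℕ => (m : ℝ)) atTop atTop := tendsto_natCast_atTop_atTop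
  have t1 : Tendsto (fun m : ℕ => Real.log (m : ℝ)) atTop atTop :=
    Real.tendsto_log_atTop.comp t0
  have h4 : 0 < (4 + η)⁻¹ := by positivity
  have t2 : Tendsto (fun m : ℕ => (Real.log (m : ℝ)) ^ ((4 + η)⁻¹)) atTop atTop :=
    (tendsto_rpow_atTop h4).comp t1
  have e1 := t2.eventually_ge_atTop 2
  have e3 := t2.eventually (ng_ev hη)
  have e4 : ∀ᶠ m : ℕ in atTop, 1 ≤ δ * √(m : ℝ) :=
    ((Real.tendsto_sqrt_atTop.comp t0).const_mul_atTop hδ).eventually_ge_atTop 1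
  obtain ⟨m₀, hm₀⟩ := Filter.eventually_atTop.1
    (e1.and (e3.and (e4.and (t1.eventually_ge_atTop 1))))
  refine ⟨max m₀ 1, fun m hm n hg => ?_⟩
  obtain ⟨f1, f2, f3, f4⟩ := hm₀ m (le_of_max_le_left hm)
  have hm1 : 1 ≤ m := le_of_max_le_right hm
  have hmR : (1 : ℝ) ≤ m := by exact_mod_cast hm1
  have hm0 : (0 : ℝ) < m := by linarith
  obtain ⟨L, hL⟩ : ∃ L : ℝ, L = Real.log m := ⟨_, rfl⟩
  rw [← hL] at f1 f2 f4 ⊢
  have hL0 : 0 < L := by linarith
  obtain ⟨y, hy⟩ : ∃ y : ℝ, y = L ^ ((4 + η)⁻¹) := ⟨_, rfl⟩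
  rw [← hy] at f1 f2
  have hy0 : 0 < y := by linarith
  have hyL : y ^ 4 * y ^ η = L := by
    have h5 : y ^ (4 + η) = L := by
      rw [hy]
      exact Real.rpow_inv_rpow hL0.le (by positivity)
    rw [Real.rpow_add hy0] at h5
    have h6 : y ^ (4 : ℝ) = y ^ 4 := by
      have := Real.rpow_natCast y 4
      push_cast at this
      exact this
    rw [h6] at h5
    exact h5
  obtain ⟨K, hK⟩ : ∃ K : ℕ, K = ⌈y⌉₊ := ⟨_, rfl⟩
  have hK1 : y ≤ K := by rw [hK]; exact Nat.le_ceil y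
  have hK2 : (K : ℝ) ≤ 2 * y := by
    have h1 : (K : ℝ) < y + 1 := by rw [hK]; exact Nat.ceil_lt_add_one hy0.le
    linarith
  have hKn : 2 ≤ K := by
    have h1 : ((2 : ℕ) : ℝ) ≤ K := by push_cast; linarith
    exact_mod_cast h1
  have hK0 : (0 : ℝ) < K := by linarith
  have hlogK : 0 ≤ Real.log K := Real.log_nonneg (by linarith)
  have hM : (0 : ℝ) < (MQ K : ℝ) := by
    unfold MQ
    push_cast
    positivity
  have hMQ : Real.log (MQ K : ℝ) ≤ L / 2 := by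
    refine (ng_log hKn).trans ?_
    have h1 : (K : ℝ) ^ 4 ≤ 16 * y ^ 4 := by
      have h2 : (K : ℝ) ^ 4 ≤ (2 * y) ^ 4 := pow_le_pow_left₀ hK0.le hK2 4
      have h3 : (2 * y) ^ 4 = 16 * y ^ 4 := by ring
      rw [h3] at h2
      exact h2
    have h2 : Real.log K ≤ Real.log (2 * y) := Real.log_le_log hK0 hK2
    have h3 : (K : ℝ) ^ 4 * Real.log K ≤ 16 * y ^ 4 * Real.log (2 * y) :=
      mul_le_mul h1 h2 hlogK (by positivity)
    have h5 : y ^ 4 * (11904 * Real.log (2 * y)) ≤ y ^ 4 * y ^ η :=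
      mul_le_mul_of_nonneg_left f2 (by positivity)
    rw [hyL] at h5
    linarith
  have hs0 : 0 < √(m : ℝ) := Real.sqrt_pos.2 hm0
  have hss : √(m : ℝ) * √(m : ℝ) = m := Real.mul_self_sqrt hm0.le
  have hMs : (MQ K : ℝ) ≤ √(m : ℝ) := by
    rw [← Real.log_le_log_iff hM hs0, Real.log_sqrt hm0.le, ← hL]
    exact hMQ
  have hs1 : √(m : ℝ) ≤ m := by
    have h1 : 1 ≤ √(m : ℝ) := by
      rw [show (1 : ℝ) = √1 from Real.sqrt_one.symm]
      exact Real.sqrt_le_sqrt hmR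
    nlinarith
  have hMd : (MQ K : ℝ) ≤ δ * m := by
    have h1 : √(m : ℝ) ≤ δ * m := by
      have h2 : 1 * √(m : ℝ) ≤ δ * √(m : ℝ) * √(m : ℝ) :=
        mul_le_mul_of_nonneg_right f3 hs0.le
      rw [mul_assoc, hss] at h2
      linarith
    linarith
  have hMm : MQ K ≤ m := by
    have h2 : (MQ K : ℝ) ≤ m := by linarith
    exact_mod_cast h2
  have h2 := redQ K hKn m hMm n hg
  have h3 : (K : ℝ) ^ m ≤ n * (K : ℝ) ^ (MQ K) := by exact_mod_cast h2
  have hn0 : (0 : ℝ) < n := by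
    by_contra hcon
    have h4 : (n : ℝ) * (K : ℝ) ^ (MQ K) ≤ 0 :=
      mul_nonpos_of_nonpos_of_nonneg (not_lt.1 hcon) (by positivity)
    have h5 : (0 : ℝ) < (K : ℝ) ^ m := by positivity
    linarith
  have h4 : Real.log ((K : ℝ) ^ m) ≤ Real.log (n * (K : ℝ) ^ (MQ K)) :=
    Real.log_le_log (by positivity) h3
  rw [Real.log_mul hn0.ne' (by positivity), Real.log_pow, Real.log_pow] at h4
  have h5 : Real.log L = (4 + η) * Real.log y := by
    rw [hy, Real.log_rpow hL0]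
    field_simp
  have h6 : Real.log y ≤ Real.log K := Real.log_le_log hy0 hK1
  have h8 : (MQ K : ℝ) * Real.log K ≤ δ * m * Real.log K :=
    mul_le_mul_of_nonneg_right hMd hlogK
  have h9 : (1 - δ) * m * Real.log y ≤ (1 - δ) * m * Real.log K :=
    mul_le_mul_of_nonneg_left h6 (mul_nonneg (by linarith) hm0.le)
  have h10 : (1 - δ) * m * Real.log K ≤ Real.log n := by linarith
  rw [h5]
  have h11 : (4 + η) * ((1 - δ) * m * Real.log y) ≤ (4 + η) * Real.log n :=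
    mul_le_mul_of_nonneg_left (h9.trans h10) (by linarith)
  linarith

private theorem ng_ev2 (m₀ : ℕ) {c : ℝ} : ∃ n₀ : ℕ, ∀ n : ℕ, n₀ ≤ n →
    c ≤ Real.log (Real.log (Real.log n)) ∧ 1 ≤ Real.log (Real.log (Real.log n)) ∧
    Real.log (Real.log (Real.log n)) ≤ 4 * √(Real.log n) ∧
    (m₀ : ℝ) + 10 ≤ √(Real.log n) := by
  have t0 : Filter.Tendsto (fun n : ℕ => (n : ℝ)) Filter.atTop Filter.atTop :=
    tendsto_natCast_atTop_atTop
  have t1 : Filter.Tendsto (fun n : ℕ => Real.log (n : ℝ)) Filter.atTop Filter.atTop :=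
    Real.tendsto_log_atTop.comp t0
  have t2 := Real.tendsto_log_atTop.comp t1
  have t3 := Real.tendsto_log_atTop.comp t2
  have t4 : Filter.Tendsto (fun n : ℕ => √(Real.log (n : ℝ))) Filter.atTop Filter.atTop :=
    Real.tendsto_sqrt_atTop.comp t1
  have e1 := t3.eventually_ge_atTop c
  have e4 := t4.eventually_ge_atTop ((m₀ : ℝ) + 10)
  have e2 := t2.eventually_ge_atTop 1
  have e0 := t3.eventually_ge_atTop 1
  obtain ⟨n₀, hn₀⟩ := Filter.eventually_atTop.1 (e0.and (e1.and (e4.and e2)))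
  refine ⟨n₀, fun n hn => ?_⟩
  obtain ⟨h1, h2, h3, h4⟩ := hn₀ n hn
  refine ⟨h2, h1, ?_, h3⟩
  have h4' : 1 ≤ Real.log (Real.log n) := h4
  have h5 : 0 < √(Real.log n) := by
    have : (0 : ℝ) ≤ m₀ := Nat.cast_nonneg _
    linarith
  have h6 : 0 < Real.log n := Real.sqrt_pos.1 h5
  have h7 : Real.log (Real.log (Real.log n)) ≤ Real.log (Real.log n) :=
    (Real.log_le_sub_one_of_pos (by linarith)).trans (by linarith)
  have h8 : Real.log (Real.log n) = 2 * Real.log (√(Real.log n)) := by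
    rw [Real.log_sqrt h6.le]
    ring
  have h9 := Real.log_le_sub_one_of_pos h5
  rw [h8] at h7
  rw [h8]
  linarith

theorem noGood (ε : ℝ) (hε : 0 < ε) : ∃ d₀ : ℕ, ∀ m d : ℕ, d₀ ≤ d →
    (4 + ε) * Real.log d / Real.log (Real.log (Real.log d)) ≤ m → 10 ≤ m ∧ ¬ HasGood m d := by
  obtain ⟨δ, hδ⟩ : ∃ δ : ℝ, δ = ε / (4 * (4 + ε)) := ⟨_, rfl⟩
  have hδ0 : 0 < δ := by rw [hδ]; positivity
  have hδe : δ * (4 * (4 + ε)) = ε := by
    rw [hδ]
    field_simp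
  have hδ1 : δ ≤ 1 := by
    rw [hδ, div_le_one (by positivity)]
    linarith
  obtain ⟨m₀, hm₀⟩ := growthE (ε / 2) δ (by linarith) hδ0 hδ1
  obtain ⟨n₀, hn₀⟩ := ng_ev2 m₀ (c := Real.log 2 / δ)
  refine ⟨n₀, fun m d hd hm => ?_⟩
  obtain ⟨e1, e0, e2, e3⟩ := hn₀ _ hd
  obtain ⟨L, hL⟩ : ∃ L : ℝ, L = Real.log d := ⟨_, rfl⟩
  obtain ⟨M, hM⟩ : ∃ M : ℝ, M = Real.log (Real.log L) := ⟨_, rfl⟩
  rw [← hL] at hm e1 e2 e3 e0
  rw [← hM] at hm e1 e2 e0
  have hm0 : (0 : ℝ) ≤ m₀ := Nat.cast_nonneg _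
  have hs : 0 < √L := by linarith
  have hLp : 0 < L := Real.sqrt_pos.1 hs
  have hMp : 0 < M := by linarith
  have hss : √L * √L = L := Real.mul_self_sqrt hLp.le
  have h11 : (4 + ε) * L ≤ m * M := by
    rwa [div_le_iff₀ hMp] at hm
  have h4 : √L ≤ m := by
    refine le_trans ?_ hm
    rw [le_div_iff₀ hMp]
    have h5 : √L * M ≤ √L * (4 * √L) := mul_le_mul_of_nonneg_left e2 hs.le
    have h6 : √L * (4 * √L) = 4 * L := by
      calc √L * (4 * √L) = 4 * (√L * √L) := by ring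
        _ = 4 * L := by rw [hss]
    nlinarith
  have h5 : (m₀ : ℝ) + 10 ≤ m := e3.trans h4
  have h6 : m₀ + 10 ≤ m := by exact_mod_cast h5
  refine ⟨by omega, fun hg => ?_⟩
  have h7 := hm₀ m (by omega) d hg
  rw [← hL] at h7
  have hm1 : (1 : ℝ) < m := by linarith
  have h8 : Real.log L / 2 ≤ Real.log m := by
    rw [← Real.log_sqrt hLp.le]
    exact Real.log_le_log hs h4
  have hL1 : 1 < Real.log L := by
    by_contra h9
    have h10 : 0 ≤ Real.log L := Real.log_nonneg (by nlinarith)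
    have := Real.log_nonpos h10 (not_lt.1 h9)
    linarith
  have h9 : M - Real.log 2 ≤ Real.log (Real.log m) := by
    rw [hM, ← Real.log_div (by linarith) two_ne_zero]
    exact Real.log_le_log (by linarith) h8
  have h12 : Real.log 2 ≤ δ * M := by
    rw [div_le_iff₀ hδ0] at e1
    linarith
  have h10 : (1 - δ) * M ≤ Real.log (Real.log m) := by linarith
  have hmp : (0 : ℝ) < m := by linarith
  have h13 : m * ((1 - δ) * M) ≤ m * Real.log (Real.log m) :=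
    mul_le_mul_of_nonneg_left h10 hmp.le
  have h14 : (1 - δ) * (m * ((1 - δ) * M)) ≤ (4 + ε / 2) * L :=
    (mul_le_mul_of_nonneg_left h13 (by linarith)).trans h7
  have h15 : (1 - δ) ^ 2 * ((4 + ε) * L) ≤ (1 - δ) ^ 2 * (m * M) :=
    mul_le_mul_of_nonneg_left h11 (by positivity)
  have h16 : (1 - δ) ^ 2 * (4 + ε) * L ≤ (4 + ε / 2) * L := by
    calc (1 - δ) ^ 2 * (4 + ε) * L = (1 - δ) ^ 2 * ((4 + ε) * L) := by ring
      _ ≤ (1 - δ) ^ 2 * (m * M) := h15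
      _ = (1 - δ) * (m * ((1 - δ) * M)) := by ring
      _ ≤ _ := h14
  have h17 : (1 - δ) ^ 2 * (4 + ε) ≤ 4 + ε / 2 := le_of_mul_le_mul_right h16 hLp
  have h18 : (1 - δ) ^ 2 * (4 + ε) = (4 + ε) - δ * (4 * (4 + ε)) / 2 + δ ^ 2 * (4 + ε) := by
    ring
  rw [h18, hδe] at h17
  have h19 : 0 < δ ^ 2 * (4 + ε) := by positivity
  linarith

end MS216
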