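import Pool.Agent.H.MP_216555_lc.SGood
import Pool.Agent.H.MP_216555_lc.l.NoGood

/-!
# The local version of the main theorem

Let `z` be a tuple of length `s + 1`, `B` the set of the points of `del i z`. The orbit of `z i` over `B` in the
system of partial isomorphisms has as many points as `del i z` has extensions in the color of `z`. The
restriction of the system to this orbit is good with parameter `m - s` if there is no matching (homogeneity of the
scheme is not needed), and `noGood` applies.
-/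

set_option linter.unusedSectionVars false

namespace MS216

open Finset

section restrict

variable {V : Type} [Fintype V] [DecidableEq V] {m : ℕ}

/-- identity on `B` together with the image of `f` -/
private def loUp (B C : Finset V) (f : Finset ({x // x ∈ C} × {x // x ∈ C})) :
    Finset (V × V) :=
  B.image (fun a => (a, a)) ∪ f.image (fun p => (p.1.val, p.2.val))

private theorem lo_mem_up {B C : Finset V} {f : Finset ({x // x ∈ C} × {x // x ∈ C})} {a b : V} :
    (a, b) ∈ loUp B C f ↔ (a = b ∧ a ∈ B) ∨ ∃ p ∈ f, p.1.val = a ∧ p.2.val = b := by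
  unfold loUp
  simp only [Finset.mem_union, Finset.mem_image, Prod.mk.injEq]
  constructor
  · rintro (⟨c, hc, rfl, rfl⟩ | ⟨p, hp, h1, h2⟩)
    · exact Or.inl ⟨rfl, hc⟩
    · exact Or.inr ⟨p, hp, h1, h2⟩
  · rintro (⟨rfl, h⟩ | ⟨p, hp, h1, h2⟩)
    · exact Or.inl ⟨a, h, rfl, rfl⟩
    · exact Or.inr ⟨p, hp, h1, h2⟩

private theorem lo_up_card (B C : Finset V) (f : Finset ({x // x ∈ C} × {x // x ∈ C})) :
    (loUp B C f).card ≤ B.card + f.card := by
  unfold loUp
  exact (Finset.card_union_le _ _).trans (Nat.add_le_add Finset.card_image_le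
    Finset.card_image_le)

private theorem lo_up_mono {B C : Finset V} {f g : Finset ({x // x ∈ C} × {x // x ∈ C})}
    (h : g ⊆ f) : loUp B C g ⊆ loUp B C f := by
  rintro ⟨a, b⟩ hab
  rw [lo_mem_up] at hab ⊢
  rcases hab with h1 | ⟨p, hp, h1⟩
  · exact Or.inl h1
  · exact Or.inr ⟨p, h hp, h1⟩

private theorem lo_up_idm (P : PI V m) {B C : Finset V} {A : Finset {x // x ∈ C}}
    (hA : B.card + A.card ≤ m) : loUp B C (A.image (fun a => (a, a))) ∈ P.I := by
  refine P.sub _ (P.idm (B ∪ A.image Subtype.val) ?_) _ ?_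
  · exact ((Finset.card_union_le _ _).trans (Nat.add_le_add_left Finset.card_image_le _)).trans hA
  · rintro ⟨a, b⟩ hab
    rw [lo_mem_up] at hab
    rw [Finset.mem_image]
    rcases hab with ⟨rfl, h⟩ | ⟨p, hp, h1, h2⟩
    · exact ⟨a, Finset.mem_union_left _ h, rfl⟩
    · rw [Finset.mem_image] at hp
      obtain ⟨c, hc, rfl⟩ := hp
      refine ⟨c.val, Finset.mem_union_right _ (Finset.mem_image_of_mem _ hc), ?_⟩
      rw [← h1, ← h2]

/-- the restriction of a system to a class `C` of an invariant equivalence relation over `B` -/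
private def loSub (P : PI V m) (B : Finset V) (hm : B.card + 6 ≤ m) (e : V → V → Prop)
    (he : P.InvEq B e) (C : Finset V) (y : V) (hC : ∀ x, x ∈ C ↔ e y x) :
    PI {x // x ∈ C} (m - B.card) where
  I := {f | loUp B C f ∈ P.I}
  inj := by
    intro f hf p hp q hq
    have h := P.inj _ hf (p.1.val, p.2.val) (lo_mem_up.2 (Or.inr ⟨p, hp, rfl, rfl⟩))
      (q.1.val, q.2.val) (lo_mem_up.2 (Or.inr ⟨q, hq, rfl, rfl⟩))
    rw [Subtype.ext_iff, Subtype.ext_iff]
    exact h
  idm := by
    intro A hA
    exact lo_up_idm P (by omega)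
  sub := by
    intro f hf g hg
    exact P.sub _ hf _ (lo_up_mono hg)
  inv := by
    intro f hf
    refine P.sub _ (P.inv _ hf) _ ?_
    rintro ⟨a, b⟩ hab
    rw [lo_mem_up] at hab
    rw [Finset.mem_image]
    refine ⟨(b, a), lo_mem_up.2 ?_, rfl⟩
    rcases hab with ⟨rfl, h⟩ | ⟨p, hp, h1, h2⟩
    · exact Or.inl ⟨rfl, h⟩
    · rw [Finset.mem_image] at hp
      obtain ⟨q, hq, rfl⟩ := hp
      exact Or.inr ⟨q, hq, h2, h1⟩
  comp := by
    intro f hf g hg h hh
    refine P.comp _ hf _ hg _ ?_
    rintro ⟨a, b⟩ hab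
    rw [lo_mem_up] at hab
    rcases hab with ⟨rfl, h1⟩ | ⟨p, hp, h1, h2⟩
    · exact ⟨a, lo_mem_up.2 (Or.inl ⟨rfl, h1⟩), lo_mem_up.2 (Or.inl ⟨rfl, h1⟩)⟩
    · obtain ⟨c, hc1, hc2⟩ := hh p hp
      exact ⟨c.val, lo_mem_up.2 (Or.inr ⟨_, hc1, h1, rfl⟩),
        lo_mem_up.2 (Or.inr ⟨_, hc2, rfl, h2⟩)⟩
  ext := by
    intro f hf hfm
    rcases f.eq_empty_or_nonempty with rfl | ⟨⟨a, a'⟩, ha⟩
    · refine ⟨1, fun w => ?_⟩
      have h1 := lo_up_idm P (B := B) (C := C) (A := {w}) (by rw [Finset.card_singleton]; omega)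
      rw [Finset.image_singleton] at h1
      exact h1
    · obtain ⟨β, hβ⟩ := P.ext _ hf (lt_of_le_of_lt (lo_up_card _ _ _) (by omega))
      have hin : ∀ w, P.Tp B [a.val, w] [a'.val, β w] := by
        intro w
        refine ⟨rfl, P.sub _ (hβ w) _ ?_⟩
        rintro ⟨c, d⟩ hcd
        rw [mem_pr] at hcd
        rw [Finset.mem_insert, lo_mem_up]
        simp only [List.zip_cons_cons, List.zip_nil_right, List.mem_cons, List.not_mem_nil,
          Prod.mk.injEq, or_false] at hcd
        rcases hcd with h1 | ⟨rfl, rfl⟩ | ⟨rfl, rfl⟩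
        · exact Or.inr (Or.inl h1)
        · exact Or.inr (Or.inr ⟨_, ha, rfl, rfl⟩)
        · exact Or.inl rfl
      have hya : e y a.val := (hC _).1 a.2
      have hya' : e y a'.val := (hC _).1 a'.2
      have hCβ : ∀ w, w ∈ C ↔ β w ∈ C := by
        intro w
        rw [hC, hC]
        constructor
        · intro h1
          have h2 : e a.val w := he.equiv.trans (he.equiv.symm hya) h1
          exact he.equiv.trans hya' (he.inv _ _ _ _ (hin w) h2)
        · intro h1
          have h2 : e a'.val (β w) := he.equiv.trans (he.equiv.symm hya') h1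
          exact he.equiv.trans hya (he.inv _ _ _ _ (hin w).symm h2)
      refine ⟨β.subtypeEquiv hCβ, fun w => ?_⟩
      refine P.sub _ (hβ w.val) _ ?_
      rintro ⟨c, d⟩ hcd
      rw [lo_mem_up] at hcd
      rw [Finset.mem_insert, lo_mem_up]
      rcases hcd with h1 | ⟨p, hp, h1, h2⟩
      · exact Or.inr (Or.inl h1)
      · rw [Finset.mem_insert] at hp
        rcases hp with rfl | hp
        · left
          rw [← h1, ← h2]
          rfl
        · exact Or.inr (Or.inr ⟨p, hp, h1, h2⟩)

private theorem lo_tp {P : PI V m} {B : Finset V} {hm : B.card + 6 ≤ m} {e : V → V → Prop}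
    {he : P.InvEq B e} {C : Finset V} {y : V} {hC : ∀ x, x ∈ C ↔ e y x}
    {B' : Finset {x // x ∈ C}} {l l' : List {x // x ∈ C}} :
    (loSub P B hm e he C y hC).Tp B' l l' ↔
      P.Tp (B ∪ B'.image Subtype.val) (l.map Subtype.val) (l'.map Subtype.val) := by
  have key : loUp B C (pr B' l l') =
      pr (B ∪ B'.image Subtype.val) (l.map Subtype.val) (l'.map Subtype.val) := by
    ext ⟨a, b⟩
    rw [lo_mem_up, mem_pr, List.zip_map, List.mem_map]
    constructor
    · rintro (⟨rfl, h⟩ | ⟨⟨p, q⟩, hp, h1, h2⟩)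
      · exact Or.inl ⟨rfl, Finset.mem_union_left _ h⟩
      · rw [mem_pr] at hp
        rcases hp with ⟨rfl, h⟩ | h
        · dsimp only at h1 h2
          refine Or.inl ⟨h1.symm.trans h2, Finset.mem_union_right _ ?_⟩
          rw [← h1]
          exact Finset.mem_image_of_mem _ h
        · exact Or.inr ⟨(p, q), h, by rw [Prod.map_apply]; exact Prod.ext h1 h2⟩
    · rintro (⟨rfl, h⟩ | ⟨⟨p, q⟩, hp, h1⟩)
      · rw [Finset.mem_union, Finset.mem_image] at h
        rcases h with h | ⟨c, hc, rfl⟩
        · exact Or.inl ⟨rfl, h⟩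
        · exact Or.inr ⟨(c, c), mem_pr.2 (Or.inl ⟨rfl, hc⟩), rfl, rfl⟩
      · rw [Prod.map_apply, Prod.mk.injEq] at h1
        exact Or.inr ⟨(p, q), mem_pr.2 (Or.inr hp), h1.1, h1.2⟩
  unfold PI.Tp
  rw [← key, List.length_map, List.length_map]
  rfl

end restrict

/-- Restriction to a class, without homogeneity. -/
theorem PI.good_of_class {V : Type} [Fintype V] [DecidableEq V] {m : ℕ} {P : PI V m}
    (hfree : ∀ B : Finset V, B.card + 2 ≤ m → ∀ y z, y ≠ z → P.Tp B [y] [z] →
      ∃ z', z' ≠ z ∧ P.Tp B [y, z] [y, z'])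
    (hanti : ∀ B : Finset V, ∀ w y z, w ≠ y → ¬ P.Tp B [w, y, z] [y, z, w]) {B : Finset V} (hm : B.card + 6 ≤ m) {e : V → V → Prop}
    (he : P.InvEq B e) {y z : V} (hz : z ≠ y) (hez : e y z) :
    HasGood (m - B.card) (fs (e y)).card := by
  have hC : ∀ x, x ∈ fs (e y) ↔ e y x := fun x => mem_fs
  refine ⟨{x // x ∈ fs (e y)}, inferInstance, inferInstance,
    loSub P B hm e he (fs (e y)) y hC, ⟨?_, ?_, ?_, ?_⟩, Fintype.card_coe _⟩
  · intro a b
    rw [lo_tp]
    have h1 : e a.val b.val := he.equiv.trans (he.equiv.symm ((hC _).1 a.2)) ((hC _).1 b.2)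
    have h2 := he.tp _ _ h1
    rw [Finset.image_empty, Finset.union_empty]
    exact h2
  · intro B' hB' a b hab ht
    rw [lo_tp] at ht
    have hcard : (B ∪ B'.image Subtype.val).card + 2 ≤ m := by
      have h1 := Finset.card_union_le B (B'.image Subtype.val)
      have h2 : (B'.image Subtype.val).card ≤ B'.card := Finset.card_image_le
      omega
    obtain ⟨c, hc, htc⟩ := hfree _ hcard a.val b.val (fun h => hab (Subtype.ext h)) ht
    have h1 : e a.val b.val := he.equiv.trans (he.equiv.symm ((hC _).1 a.2)) ((hC _).1 b.2)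
    have h2 : P.Tp B [a.val, b.val] [a.val, c] := by
      refine htc.mono rfl ?_
      intro p q hpq
      rw [mem_pr] at hpq ⊢
      rcases hpq with ⟨h3, h4⟩ | h3
      · exact Or.inl ⟨h3, Finset.mem_union_left _ h4⟩
      · exact Or.inr h3
    have h3 : e a.val c := he.inv _ _ _ _ h2 h1
    have h4 : c ∈ fs (e y) := (hC _).2 (he.equiv.trans ((hC _).1 a.2) h3)
    refine ⟨⟨c, h4⟩, fun h => hc (congrArg Subtype.val h), ?_⟩
    rw [lo_tp]
    exact htc
  · intro B' a b c hab ht
    rw [lo_tp] at ht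
    exact hanti _ a.val b.val c.val (fun h => hab (Subtype.ext h)) ht
  · rw [Fintype.card_coe]
    exact Finset.one_lt_card.2 ⟨y, (hC _).2 (he.equiv.refl y), z, (hC _).2 hez, hz.symm⟩

/-- The number of extensions of `del i z` in the color of `z` is the size of the orbit of `z i` over
the points of `del i z`. -/
private theorem lo_card {V : Type} [Fintype V] [DecidableEq V] {m : ℕ} (X : MScheme V m) {s : ℕ}
    (hs : s + 1 ≤ m) (i : Fin (s + 1)) (z : Fin (s + 1) ↪ V) :
    Nat.card {x : Fin (s + 1) ↪ V // del i x = del i z ∧ (X.rel (s + 1)) z x} =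
      (fs fun y => X.toPI.Tp (univ.image (del i z)) [z i] [y]).card := by
  have hgr : ∀ x : Fin (s + 1) ↪ V, del i x = del i z →
      graph z x = pr (univ.image (del i z)) [z i] [x i] := by
    intro x hx
    ext ⟨a, b⟩
    rw [mem_pr]
    unfold graph
    simp only [Finset.mem_image, Finset.mem_univ, true_and, Prod.mk.injEq, List.zip_cons_cons,
      List.zip_nil_right, List.mem_cons, List.not_mem_nil, or_false]
    constructor
    · rintro ⟨j, rfl, rfl⟩
      by_cases hj : j = i
      · subst hj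
        exact Or.inr ⟨rfl, rfl⟩
      · obtain ⟨k, rfl⟩ := Fin.exists_succAbove_eq hj
        have h1 : x (i.succAbove k) = z (i.succAbove k) := DFunLike.congr_fun hx k
        exact Or.inl ⟨h1.symm, k, rfl⟩
    · rintro (⟨rfl, k, rfl⟩ | ⟨rfl, rfl⟩)
      · refine ⟨i.succAbove k, rfl, ?_⟩
        exact DFunLike.congr_fun hx k
      · exact ⟨i, rfl, rfl⟩
  have hrel : ∀ x : Fin (s + 1) ↪ V, del i x = del i z →
      ((X.rel (s + 1)) z x ↔ X.toPI.Tp (univ.image (del i z)) [z i] [x i]) := by
    intro x hx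
    rw [← X.isos_iff hs z x, hgr x hx]
    exact ⟨fun h => ⟨rfl, h⟩, fun h => h.2⟩
  have hzB : z i ∉ univ.image (del i z) := by
    rw [Finset.mem_image]
    rintro ⟨k, -, hk⟩
    exact Fin.succAbove_ne i k (z.injective hk)
  let F : {x : Fin (s + 1) ↪ V // del i x = del i z ∧ (X.rel (s + 1)) z x} →
      {y // y ∈ fs fun y => X.toPI.Tp (univ.image (del i z)) [z i] [y]} :=
    fun x => ⟨x.1 i, mem_fs.2 ((hrel x.1 x.2.1).1 x.2.2)⟩
  have hF : Function.Bijective F := by
    constructor
    · intro x y hxy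
      have h1 : x.1 i = y.1 i := congrArg Subtype.val hxy
      refine Subtype.ext (Function.Embedding.ext fun j => ?_)
      by_cases hj : j = i
      · rw [hj]
        exact h1
      · obtain ⟨k, rfl⟩ := Fin.exists_succAbove_eq hj
        exact (DFunLike.congr_fun x.2.1 k).trans (DFunLike.congr_fun y.2.1 k).symm
    · rintro ⟨y, hy⟩
      rw [mem_fs] at hy
      have hyB : ∀ k : Fin s, z (i.succAbove k) ≠ y := by
        intro k hk
        have h1 := X.isos_inj hy.2 (z (i.succAbove k), z (i.succAbove k))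
          (mem_pr.2 (Or.inl ⟨rfl, Finset.mem_image_of_mem (del i z) (Finset.mem_univ k)⟩))
          (z i, y) (mem_pr.2 (Or.inr (by simp)))
        exact Fin.succAbove_ne i k (z.injective (h1.2 hk))
      have hinj : Function.Injective (Function.update z i y) := by
        intro a b hab
        by_cases ha : a = i
        · by_cases hb : b = i
          · rw [ha, hb]
          · exfalso
            obtain ⟨k, rfl⟩ := Fin.exists_succAbove_eq hb
            rw [ha, Function.update_self, Function.update_of_ne hb] at hab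
            exact hyB k hab.symm
        · by_cases hb : b = i
          · exfalso
            obtain ⟨k, rfl⟩ := Fin.exists_succAbove_eq ha
            rw [hb, Function.update_self, Function.update_of_ne ha] at hab
            exact hyB k hab
          · rw [Function.update_of_ne ha, Function.update_of_ne hb] at hab
            exact z.injective hab
      have hdel : del i (⟨Function.update z i y, hinj⟩ : Fin (s + 1) ↪ V) = del i z := by
        refine Function.Embedding.ext fun k => ?_
        show Function.update z i y (i.succAbove k) = z (i.succAbove k)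
        exact Function.update_of_ne (Fin.succAbove_ne i k) _ _
      have hval : (⟨Function.update z i y, hinj⟩ : Fin (s + 1) ↪ V) i = y :=
        Function.update_self _ _ _
      refine ⟨⟨⟨Function.update z i y, hinj⟩, hdel, (hrel _ hdel).2 ?_⟩, Subtype.ext hval⟩
      rw [hval]
      exact hy
  rw [Nat.card_eq_of_bijective F hF, Nat.card_eq_fintype_card, Fintype.card_coe]

/-- If there is no matching, the orbit given by a color carries a good system. -/
theorem MScheme.hasGood_of_color {V : Type} [Fintype V] [DecidableEq V] {m : ℕ} (X : MScheme V m)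
    (h2 : X.NoThreeCycle) (h3 : ¬ X.HasMatching) {s : ℕ} (hs : s + 6 ≤ m) (i : Fin (s + 1))
    (z : Fin (s + 1) ↪ V)
    (hd : 2 ≤ Nat.card {x : Fin (s + 1) ↪ V // del i x = del i z ∧ (X.rel (s + 1)) z x}) :
    HasGood (m - s)
      (Nat.card {x : Fin (s + 1) ↪ V // del i x = del i z ∧ (X.rel (s + 1)) z x}) := by
  have hcard := lo_card X (by omega) i z
  have hB : (univ.image (del i z)).card = s := by
    rw [Finset.card_image_of_injective _ (del i z).injective, Finset.card_univ, Fintype.card_fin]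
  have hI : X.toPI.InvEq (univ.image (del i z))
      (fun y y' => X.toPI.Tp (univ.image (del i z)) [y] [y']) :=
    PI.invEq_orbit (by rw [hB]; omega)
  obtain ⟨w, hw, hwz⟩ : ∃ w ∈ fs fun y => X.toPI.Tp (univ.image (del i z)) [z i] [y], w ≠ z i :=
    Finset.exists_mem_ne (by rw [← hcard]; omega) _
  rw [mem_fs] at hw
  have hg := PI.good_of_class (X.mfree_toPI h3) (X.anti_toPI h2) (by rw [hB]; omega) hI hwz hw
  rw [hB, ← hcard] at hg
  exact hg

/-- The local version of the main theorem. -/
theorem mainLoc (ε : ℝ) (hε : 0 < ε) : ∃ d₀ : ℕ, ∀ (V : Type) [Fintype V] (m : ℕ)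
    (X : MScheme V m), X.NoThreeCycle → ∀ (s : ℕ) (i : Fin (s + 1)) (z : Fin (s + 1) ↪ V) (d : ℕ),
      d = Nat.card {x : Fin (s + 1) ↪ V // del i x = del i z ∧ (X.rel (s + 1)) z x} →
      d₀ ≤ d → s + (4 + ε) * Real.log d / Real.log (Real.log (Real.log d)) ≤ m →
      X.HasMatching := by
  classical
  obtain ⟨d₁, h⟩ := noGood ε hε
  refine ⟨max d₁ 2, ?_⟩
  intro V _ m X h2 s i z d hd hn hms
  by_contra h3
  have h4 : (m : ℝ) ≤ ((m - s : ℕ) : ℝ) + s := by exact_mod_cast le_tsub_add
  obtain ⟨h5, h6⟩ := h (m - s) d (le_of_max_le_left hn) (by linarith)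
  refine h6 ?_
  rw [hd]
  exact X.hasGood_of_color h2 h3 (by omega) i z (hd ▸ le_of_max_le_right hn)

end MS216
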