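import Pool.Agent.H.MP_216555_lc.l.NoGood

/-!
# Growth: all sizes up to a bound
-/

namespace MS216

private theorem nl_ev (m₀ : ℕ) {c : ℝ} : ∃ n₀ : ℕ, ∀ n : ℕ, n₀ ≤ n →
    c ≤ Real.log (Real.log (Real.log n)) ∧ 1 ≤ Real.log (Real.log (Real.log n)) ∧
    Real.log (Real.log (Real.log n)) ≤ 4 * √(Real.log n) ∧
    (m₀ : ℝ) + 10 ≤ √(Real.log n) := by
  have t0 : Filter.Tendsto (fun n : ℕ => (n : ℝ)) Filter.atTop Filter.atTop :=
    tendsto_natCast_atTop_atTop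
  have t1 : Filter.Tendsto (fun n : ℕ => Real.log (n : ℝ)) Filter.atTop Filter.atTop :=
    Real.tendsto_log_atTop.comp t0
  have t2 := Real.tendsto_log_atTop.comp t1
  have t3 := Real.tendsto_log_atTop.comp t2
  have t4 : Filter.Tendsto (fun n : ℕ => √(Real.log (n : ℝ))) Filter.atTop Filter.atTop :=
    Real.tendsto_sqrt_atTop.comp t1
  have e1 := t3.eventually_ge_atTop c
  have e4 := t4.eventually_ge_atTop ((m₀ : ℝ) + 10)
  have e2 := t2.eventually_ge_atTop 1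
  have e0 := t3.eventually_ge_atTop 1
  obtain ⟨n₀, hn₀⟩ := Filter.eventually_atTop.1 (e0.and (e1.and (e4.and e2)))
  refine ⟨n₀, fun n hn => ?_⟩
  obtain ⟨h1, h2, h3, h4⟩ := hn₀ n hn
  refine ⟨h2, h1, ?_, h3⟩
  have h4' : 1 ≤ Real.log (Real.log n) := h4
  have h5 : 0 < √(Real.log n) := by
    have : (0 : ℝ) ≤ m₀ := Nat.cast_nonneg _
    linarith
  have h6 : 0 < Real.log n := Real.sqrt_pos.1 h5
  have h7 : Real.log (Real.log (Real.log n)) ≤ Real.log (Real.log n) :=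
    (Real.log_le_sub_one_of_pos (by linarith)).trans (by linarith)
  have h8 : Real.log (Real.log n) = 2 * Real.log (√(Real.log n)) := by
    rw [Real.log_sqrt h6.le]
    ring
  have h9 := Real.log_le_sub_one_of_pos h5
  rw [h8] at h7
  rw [h8]
  linarith

theorem noGoodLe (ε : ℝ) (hε : 0 < ε) : ∃ d₀ : ℕ, ∀ m d b : ℕ, d₀ ≤ d →
    (4 + ε) * Real.log d / Real.log (Real.log (Real.log d)) ≤ m →
    10 ≤ m ∧ (1 ≤ b → b ≤ d → ¬ HasGood m b) := by
  obtain ⟨δ, hδ⟩ : ∃ δ : ℝ, δ = ε / (4 * (4 + ε)) := ⟨_, rfl⟩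
  have hδ0 : 0 < δ := by rw [hδ]; positivity
  have hδe : δ * (4 * (4 + ε)) = ε := by
    rw [hδ]
    field_simp
  have hδ1 : δ ≤ 1 := by
    rw [hδ, div_le_one (by positivity)]
    linarith
  obtain ⟨m₀, hm₀⟩ := growthE (ε / 2) δ (by linarith) hδ0 hδ1
  obtain ⟨n₀, hn₀⟩ := nl_ev m₀ (c := Real.log 2 / δ)
  refine ⟨n₀, fun m d b hd hm => ?_⟩
  obtain ⟨e1, e0, e2, e3⟩ := hn₀ _ hd
  obtain ⟨L, hL⟩ : ∃ L : ℝ, L = Real.log d := ⟨_, rfl⟩
  obtain ⟨M, hM⟩ : ∃ M : ℝ, M = Real.log (Real.log L) := ⟨_, rfl⟩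
  rw [← hL] at hm e1 e2 e3 e0
  rw [← hM] at hm e1 e2 e0
  have hm0 : (0 : ℝ) ≤ m₀ := Nat.cast_nonneg _
  have hs : 0 < √L := by linarith
  have hLp : 0 < L := Real.sqrt_pos.1 hs
  have hMp : 0 < M := by linarith
  have hss : √L * √L = L := Real.mul_self_sqrt hLp.le
  have h11 : (4 + ε) * L ≤ m * M := by
    rwa [div_le_iff₀ hMp] at hm
  have h4 : √L ≤ m := by
    refine le_trans ?_ hm
    rw [le_div_iff₀ hMp]
    have h5 : √L * M ≤ √L * (4 * √L) := mul_le_mul_of_nonneg_left e2 hs.le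
    have h6 : √L * (4 * √L) = 4 * L := by
      calc √L * (4 * √L) = 4 * (√L * √L) := by ring
        _ = 4 * L := by rw [hss]
    nlinarith
  have h5 : (m₀ : ℝ) + 10 ≤ m := e3.trans h4
  have h6 : m₀ + 10 ≤ m := by exact_mod_cast h5
  refine ⟨by omega, fun hb1 hbd hg => ?_⟩
  have h7 := hm₀ m (by omega) b hg
  have h7' : Real.log b ≤ L := by
    rw [hL]
    exact Real.log_le_log (by exact_mod_cast hb1) (by exact_mod_cast hbd)
  have h7'' : (4 + ε / 2) * Real.log b ≤ (4 + ε / 2) * L :=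
    mul_le_mul_of_nonneg_left h7' (by linarith)
  have hm1 : (1 : ℝ) < m := by linarith
  have h8 : Real.log L / 2 ≤ Real.log m := by
    rw [← Real.log_sqrt hLp.le]
    exact Real.log_le_log hs h4
  have hL1 : 1 < Real.log L := by
    by_contra h9
    have h10 : 0 ≤ Real.log L := Real.log_nonneg (by nlinarith)
    have := Real.log_nonpos h10 (not_lt.1 h9)
    linarith
  have h9 : M - Real.log 2 ≤ Real.log (Real.log m) := by
    rw [hM, ← Real.log_div (by linarith) two_ne_zero]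
    exact Real.log_le_log (by linarith) h8
  have h12 : Real.log 2 ≤ δ * M := by
    rw [div_le_iff₀ hδ0] at e1
    linarith
  have h10 : (1 - δ) * M ≤ Real.log (Real.log m) := by linarith
  have hmp : (0 : ℝ) < m := by linarith
  have h13 : m * ((1 - δ) * M) ≤ m * Real.log (Real.log m) :=
    mul_le_mul_of_nonneg_left h10 hmp.le
  have h14 : (1 - δ) * (m * ((1 - δ) * M)) ≤ (4 + ε / 2) * L :=
    ((mul_le_mul_of_nonneg_left h13 (by linarith)).trans h7).trans h7''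
  have h15 : (1 - δ) ^ 2 * ((4 + ε) * L) ≤ (1 - δ) ^ 2 * (m * M) :=
    mul_le_mul_of_nonneg_left h11 (by positivity)
  have h16 : (1 - δ) ^ 2 * (4 + ε) * L ≤ (4 + ε / 2) * L := by
    calc (1 - δ) ^ 2 * (4 + ε) * L = (1 - δ) ^ 2 * ((4 + ε) * L) := by ring
      _ ≤ (1 - δ) ^ 2 * (m * M) := h15
      _ = (1 - δ) * (m * ((1 - δ) * M)) := by ring
      _ ≤ _ := h14
  have h17 : (1 - δ) ^ 2 * (4 + ε) ≤ 4 + ε / 2 := le_of_mul_le_mul_right h16 hLp
  have h18 : (1 - δ) ^ 2 * (4 + ε) = (4 + ε) - δ * (4 * (4 + ε)) / 2 + δ ^ 2 * (4 + ε) := by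
    ring
  rw [h18, hδe] at h17
  have h19 : 0 < δ ^ 2 * (4 + ε) := by positivity
  linarith

end MS216
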