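import Pool.Agent.H.MP_216555_lc.SDef

/-!
# The valency of a color
-/

namespace MS216

/-- The valency of the color of `z` (of level `s + 1`): the number of the tuples of the color which have
the same projection `π_{s + 1}` as `z` (the last coordinate is deleted). -/
noncomputable def MScheme.lastVal {V : Type*} {m : ℕ} (X : MScheme V m) {s : ℕ}
    (z : Fin (s + 1) ↪ V) : ℕ :=
  Nat.card {x : Fin (s + 1) ↪ V // del (Fin.last s) x = del (Fin.last s) z ∧
    (X.rel (s + 1)) z x}

end MS216
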