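import Pool.Agent.H.MP_216555_lc.l.Loc
import Pool.Agent.H.MP_216555_lc.l.NoGoodLe
import Pool.Agent.H.MP_216555_lc.l.Val

/-!
# Valencies modulo `g`

The fibre of the color of `z` minus one point has `d - 1` points and is a union of fibres of colors of the
next level. If `g` does not divide `d - 1`, one of these has a size not divisible by `g`.
-/

set_option linter.unusedSectionVars false

namespace MS216

open Finset

private theorem rs_last {s : ℕ} (j : Fin (s + 1)) :
    (Fin.last (s + 1)).succAbove j = j.castSucc := Fin.succAbove_last_apply j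

private theorem rs_cast {s : ℕ} (j : Fin s) :
    ((Fin.last s).castSucc).succAbove j.castSucc = j.castSucc.castSucc := by
  refine Fin.succAbove_of_castSucc_lt _ _ ?_
  rw [Fin.castSucc_lt_castSucc_iff]
  exact Fin.castSucc_lt_last j

private theorem rs_end {s : ℕ} :
    ((Fin.last s).castSucc).succAbove (Fin.last s) = Fin.last (s + 1) := by
  rw [Fin.succAbove_of_le_castSucc _ _ le_rfl, Fin.succ_last]

section

variable {V : Type} [Fintype V] [DecidableEq V] {m : ℕ} (X : MScheme V m) {s : ℕ}

private theorem rs_image (hs : s + 1 ≤ m) (w : Fin (s + 1) ↪ V) (k : Fin (s + 1)) :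
    del k '' X.color w = X.color (del k w) := by
  ext u
  constructor
  · rintro ⟨w', hw', rfl⟩
    exact X.compatible s hs w w' hw' k
  · intro hu
    have h1 := X.regular s hs k (del k w) u hu w
    have hne : Nonempty {w' : Fin (s + 1) ↪ V // del k w' = del k w ∧ (X.rel (s + 1)) w w'} :=
      ⟨⟨w, rfl, (X.rel (s + 1)).refl' w⟩⟩
    have h2 : 0 < Nat.card {w' : Fin (s + 1) ↪ V // del k w' = del k w ∧ (X.rel (s + 1)) w w'} :=
      Nat.card_pos
    rw [h1] at h2
    obtain ⟨⟨w', hw1, hw2⟩⟩ := (Nat.card_pos_iff.1 h2).1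
    exact ⟨w', hw2, hw1⟩

/-- If all fibres have one point, the projection does not change the size. -/
private theorem rs_one (hs : s + 1 ≤ m) (w : Fin (s + 1) ↪ V) (k : Fin (s + 1))
    (h : Nat.card {w' : Fin (s + 1) ↪ V // del k w' = del k w ∧ (X.rel (s + 1)) w w'} ≤ 1) :
    (del k '' X.color w).ncard = (X.color w).ncard := by
  refine Set.ncard_image_of_injOn ?_
  intro a ha b hb hab
  have h1 := X.regular s hs k (del k w) (del k a) (X.compatible s hs w a ha k) w
  rw [h1] at h
  have h2 : Subsingleton {w' : Fin (s + 1) ↪ V // del k w' = del k a ∧ (X.rel (s + 1)) w w'} :=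
    Finite.card_le_one_iff_subsingleton.1 h
  have h3 := h2.elim ⟨a, rfl, ha⟩ ⟨b, hab.symm, hb⟩
  exact congrArg Subtype.val h3

/-- The fibre minus one point. -/
private theorem rs_E (z : Fin (s + 1) ↪ V) (E : Finset (Fin (s + 2) ↪ V))
    (hE : ∀ x, x ∈ E ↔ (del (Fin.last (s + 1)) x = z ∧
      (X.rel (s + 1)) z (del (Fin.last s).castSucc x))) :
    E.card + 1 = Nat.card {x : Fin (s + 1) ↪ V // del (Fin.last s) x = del (Fin.last s) z ∧
      (X.rel (s + 1)) z x} := by
  classical
  obtain ⟨D, hD⟩ : ∃ D : Finset (Fin (s + 1) ↪ V), D = univ.filter fun x =>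
    del (Fin.last s) x = del (Fin.last s) z ∧ (X.rel (s + 1)) z x := ⟨_, rfl⟩
  have hcard : Nat.card {x : Fin (s + 1) ↪ V // del (Fin.last s) x = del (Fin.last s) z ∧
      (X.rel (s + 1)) z x} = D.card := by
    rw [hD, Nat.card_eq_fintype_card, Fintype.card_subtype]
  have hzD : z ∈ D := by
    rw [hD, Finset.mem_filter]
    exact ⟨Finset.mem_univ _, rfl, (X.rel (s + 1)).refl' z⟩
  rw [hcard, ← Finset.card_erase_add_one hzD]
  congr 1
  refine Finset.card_bij (fun x _ => del (Fin.last s).castSucc x) ?_ ?_ ?_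
  · intro x hx
    rw [hE] at hx
    obtain ⟨hx1, hx2⟩ := hx
    have hxz : ∀ j : Fin (s + 1), x j.castSucc = z j := by
      intro j
      rw [← hx1, ← rs_last j]
      rfl
    rw [Finset.mem_erase, hD, Finset.mem_filter]
    refine ⟨?_, Finset.mem_univ _, ?_, hx2⟩
    · intro h
      have h1 : x (((Fin.last s).castSucc).succAbove (Fin.last s)) = z (Fin.last s) :=
        DFunLike.congr_fun h (Fin.last s)
      rw [rs_end, ← hxz (Fin.last s)] at h1
      have h2 := x.injective h1
      exact absurd h2.symm (Fin.castSucc_lt_last _).ne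
    · refine Function.Embedding.ext fun j => ?_
      show x (((Fin.last s).castSucc).succAbove ((Fin.last s).succAbove j)) =
        z ((Fin.last s).succAbove j)
      rw [Fin.succAbove_last_apply, rs_cast, hxz]
  · intro x hx y hy hxy
    rw [hE] at hx hy
    have hxz : ∀ j : Fin (s + 1), x j.castSucc = y j.castSucc := by
      intro j
      have h1 : del (Fin.last (s + 1)) x = del (Fin.last (s + 1)) y := hx.1.trans hy.1.symm
      have h2 : x ((Fin.last (s + 1)).succAbove j) = y ((Fin.last (s + 1)).succAbove j) :=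
        DFunLike.congr_fun h1 j
      rwa [rs_last] at h2
    have hl : x (Fin.last (s + 1)) = y (Fin.last (s + 1)) := by
      have h2 : x (((Fin.last s).castSucc).succAbove (Fin.last s)) =
          y (((Fin.last s).castSucc).succAbove (Fin.last s)) :=
        DFunLike.congr_fun hxy (Fin.last s)
      rwa [rs_end] at h2
    refine Function.Embedding.ext fun j => ?_
    cases j using Fin.lastCases with
    | last => exact hl
    | cast j => exact hxz j
  · intro y hy
    rw [Finset.mem_erase, hD, Finset.mem_filter] at hy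
    obtain ⟨hyz, -, hy1, hy2⟩ := hy
    have hyj : ∀ j : Fin s, y j.castSucc = z j.castSucc := by
      intro j
      have h2 : y ((Fin.last s).succAbove j) = z ((Fin.last s).succAbove j) :=
        DFunLike.congr_fun hy1 j
      rwa [Fin.succAbove_last_apply] at h2
    have hnot : ∀ j : Fin (s + 1), z j ≠ y (Fin.last s) := by
      intro j hj
      cases j using Fin.lastCases with
      | last =>
        refine hyz (Function.Embedding.ext fun k => ?_)
        cases k using Fin.lastCases with
        | last => exact hj.symm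
        | cast k => exact hyj k
      | cast j =>
        rw [← hyj j] at hj
        exact absurd (y.injective hj) (Fin.castSucc_lt_last _).ne
    obtain ⟨f, hf1, hf2⟩ : ∃ f : Fin (s + 2) → V, (∀ j : Fin (s + 1), f j.castSucc = z j) ∧
        f (Fin.last (s + 1)) = y (Fin.last s) :=
      ⟨Fin.snoc (α := fun _ => V) z (y (Fin.last s)), fun j => by simp, by simp⟩
    have hinj : Function.Injective f := by
      intro a b hab
      cases a using Fin.lastCases with
      | last =>
        cases b using Fin.lastCases with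
        | last => rfl
        | cast b =>
          rw [hf2, hf1] at hab
          exact absurd hab.symm (hnot b)
      | cast a =>
        cases b using Fin.lastCases with
        | last =>
          rw [hf2, hf1] at hab
          exact absurd hab (hnot a)
        | cast b =>
          rw [hf1, hf1] at hab
          rw [z.injective hab]
    have hx1 : del (Fin.last (s + 1)) (⟨f, hinj⟩ : Fin (s + 2) ↪ V) = z := by
      refine Function.Embedding.ext fun j => ?_
      show f ((Fin.last (s + 1)).succAbove j) = z j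
      rw [rs_last, hf1]
    have hx2 : del (Fin.last s).castSucc (⟨f, hinj⟩ : Fin (s + 2) ↪ V) = y := by
      refine Function.Embedding.ext fun j => ?_
      show f (((Fin.last s).castSucc).succAbove j) = y j
      cases j using Fin.lastCases with
      | last => rw [rs_end, hf2]
      | cast j => rw [rs_cast, hf1, hyj]
    refine ⟨⟨f, hinj⟩, ?_, hx2⟩
    rw [hE, hx2]
    exact ⟨hx1, hy2⟩

/-- A color of the next level whose valency is not divisible by `g`. -/
private theorem rs_exists (hs : s + 2 ≤ m) (z : Fin (s + 1) ↪ V) {g : ℕ}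
    (hd : ¬ Nat.card {x : Fin (s + 1) ↪ V // del (Fin.last s) x = del (Fin.last s) z ∧
      (X.rel (s + 1)) z x} ≡ 1 [MOD g]) :
    ∃ x : Fin (s + 2) ↪ V, del (Fin.last (s + 1)) x = z ∧
      (X.rel (s + 1)) z (del (Fin.last s).castSucc x) ∧
      ¬ g ∣ Nat.card {x' : Fin (s + 2) ↪ V //
        del (Fin.last (s + 1)) x' = del (Fin.last (s + 1)) x ∧ (X.rel (s + 2)) x x'} := by
  classical
  by_contra hcon
  push Not at hcon
  apply hd
  obtain ⟨E, hE⟩ : ∃ E : Finset (Fin (s + 2) ↪ V), ∀ x, x ∈ E ↔
      (del (Fin.last (s + 1)) x = z ∧ (X.rel (s + 1)) z (del (Fin.last s).castSucc x)) :=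
    ⟨univ.filter fun x => del (Fin.last (s + 1)) x = z ∧
      (X.rel (s + 1)) z (del (Fin.last s).castSucc x), fun x => by simp⟩
  rw [← rs_E X z E hE]
  obtain ⟨f, hf⟩ : ∃ f : (Fin (s + 2) ↪ V) → Finset (Fin (s + 2) ↪ V), ∀ x x', x' ∈ f x ↔
      (del (Fin.last (s + 1)) x' = del (Fin.last (s + 1)) x ∧ (X.rel (s + 2)) x x') :=
    ⟨fun x => univ.filter fun x' => del (Fin.last (s + 1)) x' = del (Fin.last (s + 1)) x ∧
      (X.rel (s + 2)) x x', fun x x' => by simp⟩
  have hg : g ∣ E.card := by
    rw [Finset.card_eq_sum_card_image f E]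
    refine Finset.dvd_sum fun b hb => ?_
    obtain ⟨x, hx, rfl⟩ := Finset.mem_image.1 hb
    have hx' := hx
    rw [hE] at hx'
    have h1 : E.filter (fun y => f y = f x) = f x := by
      ext y
      rw [Finset.mem_filter]
      constructor
      · rintro ⟨-, h⟩
        rw [← h, hf]
        exact ⟨rfl, (X.rel (s + 2)).refl' y⟩
      · intro hy
        rw [hf] at hy
        refine ⟨?_, ?_⟩
        · rw [hE]
          refine ⟨hy.1.trans hx'.1, ?_⟩
          exact (X.rel (s + 1)).trans' hx'.2
            (X.compatible (s + 1) hs x y hy.2 (Fin.last s).castSucc)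
        · ext w
          rw [hf, hf, hy.1]
          constructor
          · rintro ⟨h2, h3⟩
            exact ⟨h2, (X.rel (s + 2)).trans' hy.2 h3⟩
          · rintro ⟨h2, h3⟩
            exact ⟨h2, (X.rel (s + 2)).trans' ((X.rel (s + 2)).symm' hy.2) h3⟩
    rw [h1]
    have h2 := hcon x hx'.1 hx'.2
    have h3 : Nat.card {x' : Fin (s + 2) ↪ V //
        del (Fin.last (s + 1)) x' = del (Fin.last (s + 1)) x ∧ (X.rel (s + 2)) x x'} =
        (f x).card := by
      rw [Nat.card_eq_fintype_card, Fintype.card_subtype]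
      congr 1
      ext w
      rw [Finset.mem_filter, hf]
      exact ⟨fun h => h.2, fun h => ⟨Finset.mem_univ _, h⟩⟩
    rwa [h3] at h2
  have h4 : E.card ≡ 0 [MOD g] := (Nat.modEq_zero_iff_dvd).2 hg
  exact h4.add_right 1

end

/-- Matchings when the valencies are small or divisible by `g`. -/
theorem mainRes (ε : ℝ) (hε : 0 < ε) : ∃ B₀ : ℕ, ∀ (V : Type) [Fintype V] (m : ℕ)
    (X : MScheme V m), X.NoThreeCycle → ∀ (s : ℕ) (z : Fin (s + 1) ↪ V) (g B : ℕ),
      ¬ Nat.card {x : Fin (s + 1) ↪ V // del (Fin.last s) x = del (Fin.last s) z ∧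
        (X.rel (s + 1)) z x} ≡ 1 [MOD g] →
      (∀ w : Fin (s + 2) ↪ V, (X.rel (s + 1)) z (del (Fin.last (s + 1)) w) →
        (X.rel (s + 1)) z (del (Fin.last s).castSucc w) →
        Nat.card {x : Fin (s + 2) ↪ V // del (Fin.last (s + 1)) x = del (Fin.last (s + 1)) w ∧
          (X.rel (s + 2)) w x} ≤ B ∨
        g ∣ Nat.card {x : Fin (s + 2) ↪ V // del (Fin.last (s + 1)) x =
          del (Fin.last (s + 1)) w ∧ (X.rel (s + 2)) w x}) →
      B₀ ≤ B → s + 1 + (4 + ε) * Real.log B / Real.log (Real.log (Real.log B)) ≤ m →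
      X.HasMatching := by
  classical
  obtain ⟨B₀, h⟩ := noGoodLe ε hε
  refine ⟨B₀, ?_⟩
  intro V _ m X h2 s z g B hd hval hB hms
  by_contra h3
  have h4 : (m : ℝ) ≤ ((m - (s + 1) : ℕ) : ℝ) + ((s + 1 : ℕ) : ℝ) := by
    exact_mod_cast le_tsub_add
  have hBm : (4 + ε) * Real.log B / Real.log (Real.log (Real.log B)) ≤
      ((m - (s + 1) : ℕ) : ℝ) := by
    push_cast at h4 ⊢
    linarith
  obtain ⟨h10, -⟩ := h (m - (s + 1)) B 0 hB hBm
  have hs : s + 2 ≤ m := by omega
  obtain ⟨x, hx1, hx2, hx3⟩ := rs_exists X hs z hd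
  have hxz : (X.rel (s + 1)) z (del (Fin.last (s + 1)) x) := by
    rw [hx1]
  have hle := (hval x hxz hx2).resolve_right hx3
  have hpos : 0 < Nat.card {x' : Fin (s + 2) ↪ V //
      del (Fin.last (s + 1)) x' = del (Fin.last (s + 1)) x ∧ (X.rel (s + 2)) x x'} := by
    have hne : Nonempty {x' : Fin (s + 2) ↪ V //
      del (Fin.last (s + 1)) x' = del (Fin.last (s + 1)) x ∧ (X.rel (s + 2)) x x'} :=
      ⟨⟨x, rfl, (X.rel (s + 2)).refl' x⟩⟩
    exact Nat.card_pos
  have htwo : 2 ≤ Nat.card {x' : Fin (s + 2) ↪ V //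
      del (Fin.last (s + 1)) x' = del (Fin.last (s + 1)) x ∧ (X.rel (s + 2)) x x'} := by
    by_contra hlt
    refine h3 ⟨s + 1, by omega, hs, x, (Fin.last s).castSucc, Fin.last (s + 1),
      Fin.castSucc_lt_last _, ?_, ?_⟩
    · rw [rs_image X hs, rs_image X hs, hx1]
      ext u
      constructor
      · intro hu
        exact (X.rel (s + 1)).trans' hx2 hu
      · intro hu
        exact (X.rel (s + 1)).trans' ((X.rel (s + 1)).symm' hx2) hu
    · have e1 : del (Fin.last s).castSucc '' X.color x = del (Fin.last (s + 1)) '' X.color x := by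
        rw [rs_image X hs, rs_image X hs, hx1]
        ext u
        constructor
        · intro hu
          exact (X.rel (s + 1)).trans' hx2 hu
        · intro hu
          exact (X.rel (s + 1)).trans' ((X.rel (s + 1)).symm' hx2) hu
      rw [e1]
      exact rs_one X hs x (Fin.last (s + 1)) (Nat.lt_succ_iff.1 (not_le.1 hlt))
  have hg := X.hasGood_of_color h2 h3 (s := s + 1) (by omega) (Fin.last (s + 1)) x htwo
  exact (h (m - (s + 1)) B _ hB hBm).2 hpos hle hg

end MS216
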